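import Mathlib

/-!
# MP_fbee77_co: no factorization of the 2-subset flip graph into rainbow Hamilton cycles for `n = 5`
-/

set_option autoImplicit false
set_option maxRecDepth 100000

namespace Pool.Agent.Results.MP_fbee77_co.NoneForFive

open Finset

/-- The 2-element subsets of an `n`-element set. -/
abbrev C (n : ℕ) : Type := {s : Finset (Fin n) // s.card = 2}

/-- Two 2-subsets are adjacent in the flip graph. -/
def FlipAdj {n : ℕ} (A B : C n) : Prop := (A.1 \ B.1).card = 1 ∧ (B.1 \ A.1).card = 1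

/-- The colour (transposition) of the flip from `A` to `B`. -/
def flipCol {n : ℕ} (A B : C n) : Finset (Fin n) := symmDiff A.1 B.1

/-- A rainbow Hamilton cycle of the flip graph, given by its cyclic sequence of vertices: every vertex
occurs exactly once, consecutive vertices are adjacent, and the colours of the `n.choose 2` edges are
pairwise distinct (so each of the `n.choose 2` transpositions occurs exactly once). -/
def IsRainbowHamCycle {n : ℕ} (f : ZMod (n.choose 2) → C n) : Prop :=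
  Function.Bijective f ∧ (∀ i, FlipAdj (f i) (f (i + 1))) ∧
    Function.Injective (fun i => flipCol (f i) (f (i + 1)))

/-- The edges of a cyclic sequence. -/
def cycleEdges {n : ℕ} (f : ZMod (n.choose 2) → C n) : Set (Sym2 (C n)) :=
  {e | ∃ i, e = s(f i, f (i + 1))}

/-- The flip graph `G_{n,2}` has `n - 2` pairwise edge-disjoint rainbow Hamilton cycles. -/
def HasRainbowFactorization (n : ℕ) : Prop :=
  ∃ f : Fin (n - 2) → ZMod (n.choose 2) → C n, (∀ k, IsRainbowHamCycle (f k)) ∧
    ∀ k l, k ≠ l → Disjoint (cycleEdges (f k)) (cycleEdges (f l))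

/-! ### Computation for `n = 5` -/

/-- First element of the `i`-th pair. -/
def fs (i : ℕ) : ℕ := [0, 0, 0, 0, 1, 1, 1, 2, 2, 3].getD i 0

/-- Second element of the `i`-th pair. -/
def sn (i : ℕ) : ℕ := [1, 2, 3, 4, 2, 3, 4, 3, 4, 4].getD i 0

/-- The `i`-th pair as a bit mask. -/
def msk (i : ℕ) : ℕ := [3, 5, 9, 17, 6, 10, 18, 12, 20, 24].getD i 0

/-- Bit mask of a set. -/
def maskOf (s : Finset (Fin 5)) : ℕ := ∑ x ∈ s, 2 ^ x.val

/-- The index of a pair. -/
def idx (s : C 5) : ℕ := [3, 5, 9, 17, 6, 10, 18, 12, 20, 24].idxOf (maskOf s.1)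

/-- Adjacency of indices. -/
def adjI (a b : ℕ) : Bool :=
  !Nat.beq a b && (Nat.beq (Nat.land (msk a) (msk b)) 1 || Nat.beq (Nat.land (msk a) (msk b)) 2 ||
    Nat.beq (Nat.land (msk a) (msk b)) 4 || Nat.beq (Nat.land (msk a) (msk b)) 8 ||
    Nat.beq (Nat.land (msk a) (msk b)) 16)

/-- Colour of a pair of indices. -/
def colI (a b : ℕ) : ℕ := Nat.xor (msk a) (msk b)

theorem idx_lt : ∀ s : C 5, idx s < 10 := by decide +kernel

theorem idx_inj : ∀ s t : C 5, idx s = idx t → s = t := by decide +kernel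

instance {n : ℕ} (A B : C n) : Decidable (FlipAdj A B) :=
  inferInstanceAs (Decidable ((A.1 \ B.1).card = 1 ∧ (B.1 \ A.1).card = 1))

theorem adjI_of_adj : ∀ s t : C 5, FlipAdj s t → adjI (idx s) (idx t) = true := by
  decide +kernel

theorem colI_eq : ∀ s t : C 5, colI (idx s) (idx t) = maskOf (flipCol s t) := by
  decide +kernel

theorem maskOf_inj : ∀ s t : Finset (Fin 5), maskOf s = maskOf t → s = t := by decide +kernel

/-- Colours along a list. -/
def colsOf : List ℕ → List ℕ
  | x :: y :: l => colI x y :: colsOf (y :: l)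
  | _ => []

/-- Can the path `q` (most recent vertex first) be extended by `w`? -/
def canExt (w : ℕ) (q : List ℕ) : Bool :=
  match q with
  | [] => true
  | x :: l => !((x :: l).any (Nat.beq w)) && adjI w x && !((colsOf (x :: l)).any (Nat.beq (colI w x)))

/-- Rainbow paths with `k + 1` vertices starting at the vertex with index `0`. -/
def paths : ℕ → List (List ℕ)
  | 0 => [[0]]
  | k + 1 => (paths k).flatMap (fun q =>
      ((List.range 10).filter (fun w => canExt w q)).map (fun w => w :: q))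

/-- Code of an unordered pair of indices. -/
def code (a b : ℕ) : ℕ := if a ≤ b then 10 * a + b else 10 * b + a

theorem code_inj {a b a' b' : ℕ} (ha : a < 10) (hb : b < 10) (ha' : a' < 10) (hb' : b' < 10)
    (h : code a b = code a' b') : (a = a' ∧ b = b') ∨ (a = b' ∧ b = a') := by
  unfold code at h
  split_ifs at h <;> omega

/-- Codes of the edges along a list. -/
def edgesL : List ℕ → List ℕ
  | x :: y :: l => code x y :: edgesL (y :: l)
  | _ => []

/-- Codes of the edges of the cycle obtained by closing the path at `0`. -/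
def cycL (l : List ℕ) : List ℕ := code (l.headD 0) 0 :: edgesL l

/-- The rainbow Hamilton cycles, as lists of edge codes. -/
def cycs : List (List ℕ) :=
  ((paths 9).filter (fun l => adjI (l.headD 0) 0 &&
    !((colsOf l).any (Nat.beq (colI (l.headD 0) 0))))).map cycL

/-- Disjointness of lists. -/
def disj (l m : List ℕ) : Bool := l.all (fun x => !(m.any (Nat.beq x)))

theorem noTriple : cycs.all (fun l => cycs.all (fun m => !(disj l m) ||
    cycs.all (fun k => !(disj l k && disj m k)))) = true := by decide +kernel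

/-- The list of the indices of `f k, …, f 0`. -/
def lst (f : ZMod 10 → C 5) : ℕ → List ℕ
  | 0 => [idx (f 0)]
  | k + 1 => idx (f ((k + 1 : ℕ) : ZMod 10)) :: lst f k

theorem mem_lst {f : ZMod 10 → C 5} {x : ℕ} : ∀ {k : ℕ}, x ∈ lst f k →
    ∃ j ≤ k, x = idx (f ((j : ℕ) : ZMod 10))
  | 0, h => ⟨0, le_rfl, by simpa [lst] using h⟩
  | k + 1, h => by
    rcases List.mem_cons.1 h with rfl | h
    · exact ⟨k + 1, le_rfl, rfl⟩
    · obtain ⟨j, hj, hx⟩ := mem_lst h
      exact ⟨j, by omega, hx⟩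

theorem lst_cons (f : ZMod 10 → C 5) (k : ℕ) :
    ∃ l, lst f k = idx (f ((k : ℕ) : ZMod 10)) :: l := by
  cases k with
  | zero => exact ⟨[], by simp [lst]⟩
  | succ k => exact ⟨lst f k, rfl⟩

theorem mem_cols {f : ZMod 10 → C 5} {x : ℕ} : ∀ {k : ℕ}, x ∈ colsOf (lst f k) →
    ∃ j < k, x = colI (idx (f ((j + 1 : ℕ) : ZMod 10))) (idx (f ((j : ℕ) : ZMod 10)))
  | 0, h => by simp [lst, colsOf] at h
  | k + 1, h => by
    obtain ⟨l, hl⟩ := lst_cons f k
    have h1 : lst f (k + 1) = idx (f ((k + 1 : ℕ) : ZMod 10)) :: idx (f ((k : ℕ) : ZMod 10)) :: l := by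
      rw [lst, hl]
    rw [h1, colsOf] at h
    rcases List.mem_cons.1 h with rfl | h
    · exact ⟨k, by omega, rfl⟩
    · rw [← hl] at h
      obtain ⟨j, hj, hx⟩ := mem_cols h
      exact ⟨j, by omega, hx⟩

theorem mem_edgesL {f : ZMod 10 → C 5} {x : ℕ} : ∀ {k : ℕ}, x ∈ edgesL (lst f k) →
    ∃ j < k, x = code (idx (f ((j + 1 : ℕ) : ZMod 10))) (idx (f ((j : ℕ) : ZMod 10)))
  | 0, h => by simp [lst, edgesL] at h
  | k + 1, h => by
    obtain ⟨l, hl⟩ := lst_cons f k
    have h1 : lst f (k + 1) = idx (f ((k + 1 : ℕ) : ZMod 10)) :: idx (f ((k : ℕ) : ZMod 10)) :: l := by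
      rw [lst, hl]
    rw [h1, edgesL] at h
    rcases List.mem_cons.1 h with rfl | h
    · exact ⟨k, by omega, rfl⟩
    · rw [← hl] at h
      obtain ⟨j, hj, hx⟩ := mem_edgesL h
      exact ⟨j, by omega, hx⟩

theorem flipAdj_symm {n : ℕ} {A B : C n} (h : FlipAdj A B) : FlipAdj B A := ⟨h.2, h.1⟩

theorem flipCol_comm {n : ℕ} (A B : C n) : flipCol A B = flipCol B A := symmDiff_comm _ _

/-- The hypotheses on a rainbow Hamilton cycle for `n = 5`. -/
structure Rbw (f : ZMod 10 → C 5) : Prop where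
  bij : Function.Bijective f
  adj : ∀ i, FlipAdj (f i) (f (i + 1))
  col : Function.Injective (fun i => flipCol (f i) (f (i + 1)))

theorem cast_inj {a b : ℕ} (ha : a < 10) (hb : b < 10) (h : ((a : ℕ) : ZMod 10) = ((b : ℕ) : ZMod 10)) :
    a = b := by
  rw [ZMod.natCast_eq_natCast_iff'] at h
  rwa [Nat.mod_eq_of_lt ha, Nat.mod_eq_of_lt hb] at h

theorem col_new {f : ZMod 10 → C 5} (hf : Rbw f) {j k : ℕ} (hj : j < 10) (hk : k < 10)
    (h : colI (idx (f ((k + 1 : ℕ) : ZMod 10))) (idx (f ((k : ℕ) : ZMod 10))) =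
      colI (idx (f ((j + 1 : ℕ) : ZMod 10))) (idx (f ((j : ℕ) : ZMod 10)))) : k = j := by
  rw [colI_eq, colI_eq] at h
  have h1 := maskOf_inj _ _ h
  rw [flipCol_comm, flipCol_comm (f ((j + 1 : ℕ) : ZMod 10))] at h1
  have h2 : ((k : ℕ) : ZMod 10) = ((j : ℕ) : ZMod 10) := by
    apply hf.col
    simp only
    push_cast at h1 ⊢
    exact h1
  exact cast_inj hk hj h2

theorem lst_mem_paths {f : ZMod 10 → C 5} (hf : Rbw f) (h0 : idx (f 0) = 0) :
    ∀ k < 10, lst f k ∈ paths k := by
  intro k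
  induction k with
  | zero =>
    intro _
    simp [lst, paths, h0]
  | succ k ih =>
    intro hk
    have hmem := ih (by omega)
    refine List.mem_flatMap.2 ⟨lst f k, hmem, List.mem_map.2
      ⟨idx (f ((k + 1 : ℕ) : ZMod 10)), ?_, rfl⟩⟩
    rw [List.mem_filter]
    refine ⟨List.mem_range.2 (idx_lt _), ?_⟩
    obtain ⟨l, hl⟩ := lst_cons f k
    rw [hl]
    simp only [canExt, Bool.and_eq_true, Bool.not_eq_true', List.any_eq_false]
    rw [← hl]
    refine ⟨⟨?_, ?_⟩, ?_⟩
    · intro x hx hbeq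
      obtain ⟨j, hj, rfl⟩ := mem_lst hx
      have h1 := Nat.eq_of_beq_eq_true hbeq
      have h2 := hf.bij.1 (idx_inj _ _ h1)
      have := cast_inj hk (by omega) h2
      omega
    · refine adjI_of_adj _ _ (flipAdj_symm ?_)
      have := hf.adj ((k : ℕ) : ZMod 10)
      push_cast
      exact this
    · intro x hx hbeq
      obtain ⟨j, hj, rfl⟩ := mem_cols hx
      have h1 := Nat.eq_of_beq_eq_true hbeq
      have := col_new hf (by omega) (by omega) h1
      omega

theorem exists_cyc {f : ZMod 10 → C 5} (hf : Rbw f) (h0 : idx (f 0) = 0) :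
    cycL (lst f 9) ∈ cycs ∧
      ∀ x ∈ cycL (lst f 9), ∃ i, x = code (idx (f (i + 1))) (idx (f i)) := by
  obtain ⟨l, hl⟩ := lst_cons f 9
  have hhead : (lst f 9).headD 0 = idx (f ((9 : ℕ) : ZMod 10)) := by rw [hl]; rfl
  have h10 : (((9 : ℕ) : ZMod 10) + 1) = 0 := by decide
  have h10' : ((9 + 1 : ℕ) : ZMod 10) = 0 := by decide
  constructor
  · refine List.mem_map.2 ⟨lst f 9, ?_, rfl⟩
    rw [List.mem_filter]
    refine ⟨lst_mem_paths hf h0 9 (by omega), ?_⟩
    rw [hhead]
    simp only [Bool.and_eq_true, Bool.not_eq_true', List.any_eq_false]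
    constructor
    · have h1 := hf.adj ((9 : ℕ) : ZMod 10)
      rw [h10] at h1
      have h2 := adjI_of_adj _ _ h1
      rw [h0] at h2
      exact h2
    · intro x hx hbeq
      obtain ⟨j, hj, rfl⟩ := mem_cols hx
      have h1 := Nat.eq_of_beq_eq_true hbeq
      have h3 : colI (idx (f ((9 + 1 : ℕ) : ZMod 10))) (idx (f ((9 : ℕ) : ZMod 10))) =
          colI (idx (f ((j + 1 : ℕ) : ZMod 10))) (idx (f ((j : ℕ) : ZMod 10))) := by
        rw [h10', h0, ← h1]
        exact Nat.xor_comm _ _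
      have := col_new hf (by omega) (by omega) h3
      omega
  · intro x hx
    unfold cycL at hx
    rcases List.mem_cons.1 hx with rfl | hx
    · refine ⟨((9 : ℕ) : ZMod 10), ?_⟩
      rw [hhead, h10, h0]
      unfold code
      split_ifs <;> omega
    · obtain ⟨j, -, rfl⟩ := mem_edgesL hx
      refine ⟨((j : ℕ) : ZMod 10), ?_⟩
      push_cast
      rfl

/-- Rotating a rainbow Hamilton cycle. -/
theorem rotate {f : ZMod 10 → C 5} (hf : Rbw f) : ∃ g : ZMod 10 → C 5, Rbw g ∧ idx (g 0) = 0 ∧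
    ∃ a, ∀ i, g i = f (i + a) := by
  have hz : ∃ s : C 5, idx s = 0 := by decide +kernel
  obtain ⟨s, hs⟩ := hz
  obtain ⟨a, ha⟩ := hf.bij.2 s
  refine ⟨fun i => f (i + a), ⟨?_, ?_, ?_⟩, ?_, a, fun i => rfl⟩
  · exact hf.bij.comp (Equiv.addRight a).bijective
  · intro i
    have := hf.adj (i + a)
    have h1 : i + 1 + a = i + a + 1 := by ring
    rw [h1]
    exact this
  · intro i j hij
    have h1 : ∀ i : ZMod 10, i + 1 + a = i + a + 1 := fun i => by ring
    simp only [h1] at hij
    have := hf.col hij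
    exact add_right_cancel this
  · simp only [zero_add]
    rw [ha, hs]

theorem cyc_of (N : ℕ) (hN : N = 10) (f : ZMod N → C 5) (h1 : Function.Bijective f)
    (h2 : ∀ i, FlipAdj (f i) (f (i + 1)))
    (h3 : Function.Injective (fun i => flipCol (f i) (f (i + 1)))) :
    ∃ l ∈ cycs, ∀ x ∈ l, ∃ i, x = code (idx (f (i + 1))) (idx (f i)) := by
  subst hN
  obtain ⟨g, hg, hg0, a, hga⟩ := rotate (f := f) ⟨h1, h2, h3⟩
  obtain ⟨h4, h5⟩ := exists_cyc hg hg0
  refine ⟨_, h4, fun x hx => ?_⟩
  obtain ⟨i, hi⟩ := h5 x hx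
  refine ⟨i + a, ?_⟩
  rw [hi, hga, hga]
  have : i + 1 + a = i + a + 1 := by ring
  rw [this]

/-- For `n = 5` the flip graph `G_{5,2}` has no three pairwise edge-disjoint rainbow Hamilton cycles,
that is, its edge set cannot be partitioned into `n - 2` rainbow Hamilton cycles. -/
theorem result : ¬ HasRainbowFactorization 5 := by
  rintro ⟨f, hf, hdis⟩
  have hcyc : ∀ k, ∃ l ∈ cycs, ∀ x ∈ l, ∃ i, x = code (idx (f k (i + 1))) (idx (f k i)) := by
    intro k
    obtain ⟨h1, h2, h3⟩ := hf k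
    exact cyc_of _ rfl (f k) h1 h2 h3
  choose l hl hlx using hcyc
  have hdisj : ∀ k m, k ≠ m → disj (l k) (l m) = true := by
    intro k m hkm
    unfold disj
    rw [List.all_eq_true]
    intro x hx
    rw [Bool.not_eq_true', List.any_eq_false]
    intro y hy hbeq
    have hxy := Nat.eq_of_beq_eq_true hbeq
    subst hxy
    obtain ⟨i, hi⟩ := hlx k x hx
    obtain ⟨j, hj⟩ := hlx m x hy
    rw [hi] at hj
    have h4 : s(f k i, f k (i + 1)) = s(f m j, f m (j + 1)) := by
      rcases code_inj (idx_lt _) (idx_lt _) (idx_lt _) (idx_lt _) hj with ⟨h5, h6⟩ | ⟨h5, h6⟩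
      · rw [idx_inj _ _ h5, idx_inj _ _ h6]
      · rw [idx_inj _ _ h5, idx_inj _ _ h6]
        exact Sym2.eq_swap
    exact Set.disjoint_left.1 (hdis k m hkm) ⟨i, rfl⟩ ⟨j, h4⟩
  have h := noTriple
  rw [List.all_eq_true] at h
  have h1 := h _ (hl 0)
  rw [List.all_eq_true] at h1
  have h2 := h1 _ (hl 1)
  rw [hdisj 0 1 (by decide), Bool.not_true, Bool.false_or, List.all_eq_true] at h2
  have h3 := h2 _ (hl 2)
  rw [hdisj 0 2 (by decide), hdisj 1 2 (by decide)] at h3
  exact absurd h3 (by decide)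

end Pool.Agent.Results.MP_fbee77_co.NoneForFive
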